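import Mathlib
import Pool.Agent.helper68.SF.SpecJ

/-!
Project SF (MP_d52931_gt), module J5A: the three-term relation of the physical cone sum.
-/

set_option autoImplicit false

namespace SF

open MeasureTheory Set

/-- a finite sum over words splits according to the first letter -/
theorem J5A_split (F : List Bool → ℝ) (hF : (Function.support F).Finite) :
    ∑ᶠ w, F w = F [] + (∑ᶠ w, F (true :: w)) + ∑ᶠ w, F (false :: w) := by
  classical
  have hT : Function.Injective (fun w : List Bool => true :: w) := fun a b h => by simpa using h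
  have hN : Function.Injective (fun w : List Bool => false :: w) := fun a b h => by simpa using h
  rw [← finsum_mem_range (f := F) hT, ← finsum_mem_range (f := F) hN,
    ← finsum_mem_singleton (f := F) (a := [])]
  rw [← finsum_mem_union', ← finsum_mem_union']
  · have hU : (({[]} : Set (List Bool)) ∪ range fun w : List Bool => true :: w) ∪
        (range fun w : List Bool => false :: w) = univ := by
      rw [Set.eq_univ_iff_forall]
      intro w
      rcases w with _ | ⟨b, w⟩
      · left; left; rfl
      · cases b
        · right; exact ⟨w, rfl⟩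
        · left; right; exact ⟨w, rfl⟩
    rw [hU, finsum_mem_univ]
  · rw [Set.disjoint_left]
    rintro w (h | ⟨v, rfl⟩) ⟨u, hu⟩
    · rw [mem_singleton_iff] at h
      subst h
      simp at hu
    · simp at hu
  · exact hF.subset inter_subset_right
  · exact hF.subset inter_subset_right
  · rw [Set.disjoint_left]
    rintro w h ⟨u, hu⟩
    rw [mem_singleton_iff] at h
    subst h
    simp at hu
  · exact hF.subset inter_subset_right
  · exact hF.subset inter_subset_right

/-- mediants of longer words -/
theorem J5A_md (h : BW_stmt) (w : List Bool) :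
    md (true :: w) = ((md w).1 + (md w).2, (md w).2) ∧
      md (false :: w) = ((md w).1, (md w).1 + (md w).2) := by
  have h1 := h.2.1 [true] w
  have h2 := h.2.1 [false] w
  simp only [List.singleton_append] at h1 h2
  rw [h1, h2]
  simp [bw, bs]

/-- the bound for a difference with the same argument -/
theorem J5A_bound (hBR : BR_stmt) {C : ℝ} {Φ : ℝ → ℝ} (hΦ : ∀ ρ, |Φ ρ| ≤ C)
    (b : Bool) (ρ : List Bool → ℝ) :
    |∑ᶠ w : List Bool, (pw (b :: w) - pw w) * Φ (ρ w)| ≤
      ((List.finite_length_lt Bool 4).toFinset.card : ℝ) * (2 * C) := by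
  classical
  have hs : Function.support (fun w : List Bool => (pw (b :: w) - pw w) * Φ (ρ w)) ⊆
      ((List.finite_length_lt Bool 4).toFinset : Set (List Bool)) := by
    intro w hw
    rw [Set.Finite.coe_toFinset, mem_ofPred_eq]
    by_contra hcon
    apply hw
    have h4 := (hBR.2.2 [b] w (by omega)).2
    rw [List.singleton_append] at h4
    simp only
    rw [h4, sub_self, zero_mul]
  rw [finsum_eq_sum_of_support_subset _ hs]
  refine (Finset.abs_sum_le_sum_abs _ _).trans ?_
  rw [← nsmul_eq_mul]
  apply Finset.sum_le_card_nsmul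
  intro w _
  rw [abs_mul]
  have h1 := (hBR.2.1 (b :: w)).1
  have h2 := (hBR.2.1 w).1
  have h3 : |pw (b :: w) - pw w| ≤ 2 := (abs_sub _ _).trans (by linarith)
  exact mul_le_mul h3 (hΦ _) (abs_nonneg _) (by norm_num)

/-- J5A: the three-term relation of the physical cone sum. -/
theorem J5A (hBR : BR_stmt) (hPHI : PHI_stmt) (hJS : JS_stmt) (hBW : BW_stmt) : J5A_stmt := by
  intro g hg
  obtain ⟨-, -, -, -, -, C, hC, hb⟩ := hPHI g hg
  have hΦ : ∀ ρ : ℝ, |Ph g ρ| ≤ C := fun ρ => (hb ρ).2.2.1
  refine ⟨C + (((List.finite_length_lt Bool 4).toFinset.card : ℝ) * (2 * C) +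
    ((List.finite_length_lt Bool 4).toFinset.card : ℝ) * (2 * C)), ?_⟩
  intro l l' hl hl'
  have hfin : ∀ m m' : ℝ, 0 < m → 0 < m' →
      (Function.support fun w : List Bool => pw w * Ph g ((md w).1 * m + (md w).2 * m')).Finite := by
    intro m m' hm hm'
    refine (hJS g hg m m' hm hm').1.subset ?_
    intro w hw
    simp only [mem_ofPred_eq]
    intro h0
    apply hw
    simp only [h0, mul_zero]
  have hF := hfin l l' hl hl'
  have hF1 := hfin l (l + l') hl (by positivity)
  have hF2 := hfin (l + l') l' (by positivity) hl'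
  have harg1 : ∀ w : List Bool, ((md (true :: w)).1 : ℝ) * l + ((md (true :: w)).2 : ℝ) * l' =
      (md w).1 * l + (md w).2 * (l + l') := by
    intro w
    rw [(J5A_md hBW w).1]
    push_cast
    ring
  have harg2 : ∀ w : List Bool, ((md (false :: w)).1 : ℝ) * l + ((md (false :: w)).2 : ℝ) * l' =
      (md w).1 * (l + l') + (md w).2 * l' := by
    intro w
    rw [(J5A_md hBW w).2]
    push_cast
    ring
  have hT : (Function.support fun w : List Bool =>
      pw (true :: w) * Ph g ((md w).1 * l + (md w).2 * (l + l'))).Finite := by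
    have hinj : Function.Injective (fun w : List Bool => true :: w) := fun a b h => by simpa using h
    refine (hF.preimage hinj.injOn).subset ?_
    intro w hw
    simp only [Function.mem_support, mem_preimage] at hw ⊢
    rwa [harg1]
  have hN : (Function.support fun w : List Bool =>
      pw (false :: w) * Ph g ((md w).1 * (l + l') + (md w).2 * l')).Finite := by
    have hinj : Function.Injective (fun w : List Bool => false :: w) := fun a b h => by simpa using h
    refine (hF.preimage hinj.injOn).subset ?_
    intro w hw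
    simp only [Function.mem_support, mem_preimage] at hw ⊢
    rwa [harg2]
  have hsplit := J5A_split _ hF
  simp only [harg1, harg2] at hsplit
  have e0 : jp g l l' = ∑ᶠ w : List Bool, pw w * Ph g ((md w).1 * l + (md w).2 * l') := rfl
  have e1 : jp g l (l + l') = ∑ᶠ w : List Bool, pw w * Ph g ((md w).1 * l + (md w).2 * (l + l')) := rfl
  have e2 : jp g (l + l') l' = ∑ᶠ w : List Bool, pw w * Ph g ((md w).1 * (l + l') + (md w).2 * l') := rfl
  have d1 : (∑ᶠ w : List Bool, pw (true :: w) * Ph g ((md w).1 * l + (md w).2 * (l + l'))) -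
      jp g l (l + l') =
      ∑ᶠ w : List Bool, (pw (true :: w) - pw w) * Ph g ((md w).1 * l + (md w).2 * (l + l')) := by
    rw [e1, ← finsum_sub_distrib hT hF1]
    congr 1
    ext w
    ring
  have d2 : (∑ᶠ w : List Bool, pw (false :: w) * Ph g ((md w).1 * (l + l') + (md w).2 * l')) -
      jp g (l + l') l' =
      ∑ᶠ w : List Bool, (pw (false :: w) - pw w) * Ph g ((md w).1 * (l + l') + (md w).2 * l') := by
    rw [e2, ← finsum_sub_distrib hN hF2]
    congr 1
    ext w
    ring
  have b1 := J5A_bound hBR hΦ true (fun w => (md w).1 * l + (md w).2 * (l + l'))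
  have b2 := J5A_bound hBR hΦ false (fun w => (md w).1 * (l + l') + (md w).2 * l')
  rw [← d1] at b1
  rw [← d2] at b2
  have b0 : |pw [] * Ph g (((md []).1 : ℝ) * l + ((md []).2 : ℝ) * l')| ≤ C := by
    rw [abs_mul]
    have h1 := (hBR.2.1 []).1
    calc |pw []| * |Ph g (((md []).1 : ℝ) * l + ((md []).2 : ℝ) * l')| ≤ 1 * C :=
          mul_le_mul h1 (hΦ _) (abs_nonneg _) (by norm_num)
      _ = C := one_mul C
  rw [e0, hsplit]
  have hdec : pw [] * Ph g (((md []).1 : ℝ) * l + ((md []).2 : ℝ) * l') +
      (∑ᶠ w : List Bool, pw (true :: w) * Ph g ((md w).1 * l + (md w).2 * (l + l'))) +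
      (∑ᶠ w : List Bool, pw (false :: w) * Ph g ((md w).1 * (l + l') + (md w).2 * l')) -
      (jp g l (l + l') + jp g (l + l') l') =
      pw [] * Ph g (((md []).1 : ℝ) * l + ((md []).2 : ℝ) * l') +
      (((∑ᶠ w : List Bool, pw (true :: w) * Ph g ((md w).1 * l + (md w).2 * (l + l'))) -
        jp g l (l + l')) +
      ((∑ᶠ w : List Bool, pw (false :: w) * Ph g ((md w).1 * (l + l') + (md w).2 * l')) -
        jp g (l + l') l')) := by ring
  rw [hdec]
  exact (abs_add_le _ _).trans (add_le_add b0 ((abs_add_le _ _).trans (add_le_add b1 b2)))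

end SF
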